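import Pool.Agent.WK5.Stmts

/-!
# MP_7d2497_an, squad WK5: LBW
-/

set_option autoImplicit false

namespace Pool.Agent.WK5.H15

open MeasureTheory Filter Topology Complex
open Pool.Agent.H78E Pool.Agent.WKS
open Pool.Agent.WK3 (QC Lin)

noncomputable section

theorem norm_exp_real (a : ℂ) (v : ℝ) : ‖Complex.exp (a * (v : ℂ))‖ = Real.exp (a.re * v) := by
  rw [Complex.norm_exp]
  simp

theorem key {φ : ℝ → ℝ} (hφ : IsWeight φ) {E : Type} [NormedAddCommGroup E] [NormedSpace ℂ E]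
    [CompleteSpace E] (S : GSemi φ E) (a : ℂ) (ha : 0 < a.re) (x : E) {v : ℝ} (hv0 : 0 < v) {K : ℝ}
    (hK : ∀ t : ℝ, 0 < t → t ≤ v → φ t ≤ K) :
    ‖Complex.exp (-(a * (v : ℂ))) • S.En 1 x - S.T v (S.En 1 x)‖ ≤
      K * ‖x - (1 + a) • S.En 1 x‖ / a.re := by
  have hv : 0 ≤ v := hv0.le
  set D : E := x - (1 + a) • S.En 1 x with hD
  have h1re : (0 : ℝ) < (1 : ℂ).re := by simp
  have hK0 : 0 ≤ K := (zero_le_one.trans (hφ.one_le v)).trans (hK v hv0 le_rfl)
  have hFTC : ∫ t in (0 : ℝ)..v, Complex.exp (a * (t : ℂ)) •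
      ((a + 1) • S.T t (S.En 1 x) - S.T t x) =
      Complex.exp (a * (v : ℂ)) • S.T v (S.En 1 x) -
        Complex.exp (a * ((0 : ℝ) : ℂ)) • S.T 0 (S.En 1 x) := by
    refine intervalIntegral.integral_eq_sub_of_hasDerivAt_of_le
      (f := fun t : ℝ => Complex.exp (a * (t : ℂ)) • S.T t (S.En 1 x)) hv ?_ ?_ ?_
    · have h1 : Continuous (fun v : ℝ => Complex.exp (a * (v : ℂ)) • S.T (max v 0) (S.En 1 x)) := by
        refine Continuous.smul ?_ (S.cont _)
        fun_prop
      refine h1.continuousOn.congr ?_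
      intro t ht
      simp only
      rw [max_eq_left ht.1]
    · intro t ht
      exact S.hasDerivAt_T_En hφ h1re a x ht.1
    · have h1 : Continuous (fun t : ℝ => Complex.exp (a * (t : ℂ)) •
          ((a + 1) • S.T (max t 0) (S.En 1 x) - S.T (max t 0) x)) := by
        refine Continuous.smul (by fun_prop) (((S.cont _).const_smul _).sub (S.cont _))
      refine (h1.intervalIntegrable 0 v).congr ?_
      intro t ht
      rw [Set.uIoc_of_le hv] at ht
      simp only
      rw [max_eq_left ht.1.le]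
  have hD' : ∀ t : ℝ, (a + 1) • S.T t (S.En 1 x) - S.T t x = -(S.T t D) := by
    intro t
    rw [hD, map_sub, map_smul, add_comm a 1]
    abel
  simp_rw [hD'] at hFTC
  have e0 : Complex.exp (a * ((0 : ℝ) : ℂ)) • S.T 0 (S.En 1 x) = S.En 1 x := by
    rw [S.zero]
    simp
  rw [e0] at hFTC
  have hnorm : ‖∫ t in (0 : ℝ)..v, Complex.exp (a * (t : ℂ)) • -(S.T t D)‖ ≤
      ∫ t in (0 : ℝ)..v, Real.exp (a.re * t) * (K * ‖D‖) := by
    refine intervalIntegral.norm_integral_le_of_norm_le hv ?_ ?_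
    · refine Eventually.of_forall fun t ht => ?_
      rw [norm_smul, norm_neg, norm_exp_real]
      refine mul_le_mul_of_nonneg_left ?_ (Real.exp_pos _).le
      exact (S.norm_le t ht.1.le _).trans
        (mul_le_mul_of_nonneg_right (hK t ht.1 ht.2) (norm_nonneg _))
    · exact (Continuous.mul (by fun_prop) continuous_const).intervalIntegrable _ _
  have hint : ∫ t in (0 : ℝ)..v, Real.exp (a.re * t) * (K * ‖D‖) =
      (Real.exp (a.re * v) - 1) / a.re * (K * ‖D‖) := by
    rw [intervalIntegral.integral_mul_const]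
    congr 1
    have h3 := intervalIntegral.integral_comp_mul_left (fun t => Real.exp t) ha.ne' (a := 0) (b := v)
    rw [h3, integral_exp, mul_zero, Real.exp_zero, smul_eq_mul]
    field_simp
  rw [hint, hFTC] at hnorm
  have e1 : Complex.exp (-(a * (v : ℂ))) • S.En 1 x - S.T v (S.En 1 x) =
      -(Complex.exp (-(a * (v : ℂ))) • (Complex.exp (a * (v : ℂ)) • S.T v (S.En 1 x) - S.En 1 x)) := by
    rw [smul_sub, smul_smul, ← Complex.exp_add]
    simp
  rw [e1, norm_neg, norm_smul]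
  have e2 : ‖Complex.exp (-(a * (v : ℂ)))‖ = Real.exp (-(a.re * v)) := by
    rw [← neg_mul, norm_exp_real]
    simp
  rw [e2]
  calc Real.exp (-(a.re * v)) * ‖Complex.exp (a * (v : ℂ)) • S.T v (S.En 1 x) - S.En 1 x‖
      ≤ Real.exp (-(a.re * v)) * ((Real.exp (a.re * v) - 1) / a.re * (K * ‖D‖)) :=
        mul_le_mul_of_nonneg_left hnorm (Real.exp_pos _).le
    _ = (1 - Real.exp (-(a.re * v))) / a.re * (K * ‖D‖) := by
        have : Real.exp (-(a.re * v)) * Real.exp (a.re * v) = 1 := by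
          rw [← Real.exp_add]
          simp
        have e3 : Real.exp (-(a.re * v)) * ((Real.exp (a.re * v) - 1) / a.re * (K * ‖D‖)) =
          (Real.exp (-(a.re * v)) * Real.exp (a.re * v) - Real.exp (-(a.re * v))) / a.re *
            (K * ‖D‖) := by
          ring
        rw [e3, this]
    _ ≤ 1 / a.re * (K * ‖D‖) := by
        refine mul_le_mul_of_nonneg_right ?_ (mul_nonneg hK0 (norm_nonneg _))
        refine div_le_div_of_nonneg_right ?_ ha.le
        have := Real.exp_pos (-(a.re * v))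
        linarith
    _ = K * ‖D‖ / a.re := by ring

theorem lbw : LbwStmt := by
  intro φ hφ hqc
  obtain ⟨C, hC, hqc⟩ := hqc
  refine ⟨C, hC, ?_⟩
  intro J f hf z hz x
  set S := J.S hφ with hS
  have ha : 0 < (Complex.I * z).re := by simpa using hz
  have e2 : (Complex.I * z).re = |z.im| := by
    rw [abs_of_neg hz]
    simp
  set a : ℂ := Complex.I * z with hadef
  set f0 : ℝ → ℂ := ((dv φ f : X) : ℝ → ℂ) with hf0
  have hGI : GI φ f0 := GI_dv hφ f
  have hpi : S.pi f0 = 0 := J.pi_eq_zero hφ hf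
  have hDx : S.D z x = x - (1 + a) • S.En 1 x := rfl
  set D : J.Q := S.D z x with hD
  have hfi : IntegrableOn f0 (Set.Ioi 0) volume := hGI.integrable hφ.one_le
  have hfe : IntegrableOn (fun t : ℝ => f0 t * Complex.exp (-(a * (t : ℂ)))) (Set.Ioi 0) volume := by
    refine hfi.mul_bdd (c := 1) ?_ ?_
    · exact (Continuous.aestronglyMeasurable (by fun_prop))
    · filter_upwards [ae_restrict_mem measurableSet_Ioi] with t ht
      rw [← neg_mul, norm_exp_real, ← Real.exp_zero]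
      apply Real.exp_le_exp.2
      have h1 : (0 : ℝ) < t := ht
      simp only [Complex.neg_re]
      nlinarith
  have e1 : ∫ t in Set.Ioi (0 : ℝ), f0 t * Complex.exp (-(a * (t : ℂ))) = chiW φ z f := by
    rw [chiW_eq_Ioi hz.le f]
    apply setIntegral_congr_fun measurableSet_Ioi
    intro t _
    simp only
    rw [hadef]
    congr 2
    ring
  have h1 : (∫ t in Set.Ioi (0 : ℝ), f0 t * Complex.exp (-(a * (t : ℂ)))) • S.En 1 x =
      ∫ t in Set.Ioi (0 : ℝ), f0 t • (Complex.exp (-(a * (t : ℂ))) • S.En 1 x - S.T t (S.En 1 x)) := by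
    have h2 : S.pi f0 (S.En 1 x) = 0 := by rw [hpi]; rfl
    rw [S.pi_apply hGI] at h2
    simp_rw [smul_sub, smul_smul]
    rw [integral_sub (hfe.smul_const _) (S.cont_mul hGI _), h2, sub_zero, integral_smul_const]
  have h3 : ‖(∫ t in Set.Ioi (0 : ℝ), f0 t * Complex.exp (-(a * (t : ℂ)))) • S.En 1 x‖ ≤
      ∫ t in Set.Ioi (0 : ℝ), (φ t * ‖f0 t‖) * (C * ‖D‖ / a.re) := by
    rw [h1]
    refine norm_integral_le_of_norm_le (hGI.2.mul_const _) ?_
    filter_upwards [ae_restrict_mem measurableSet_Ioi] with t ht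
    rw [norm_smul]
    have h4 := key hφ S a ha x ht (K := C * φ t) (fun s hs hst => (hqc s t hs hst).1)
    rw [← hDx] at h4
    calc ‖f0 t‖ * ‖Complex.exp (-(a * (t : ℂ))) • S.En 1 x - S.T t (S.En 1 x)‖
        ≤ ‖f0 t‖ * (C * φ t * ‖D‖ / a.re) := mul_le_mul_of_nonneg_left h4 (norm_nonneg _)
      _ = (φ t * ‖f0 t‖) * (C * ‖D‖ / a.re) := by ring
  rw [integral_mul_const, norm_smul, e1] at h3
  have h5 : ∫ t in Set.Ioi (0 : ℝ), φ t * ‖f0 t‖ = ‖f‖ := by
    rw [Y_norm_eq f]
    apply setIntegral_congr_ae measurableSet_Ioi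
    filter_upwards [coe_eq_mul_dv hφ f] with t ht _
    rw [ht, norm_mul, Complex.norm_real, Real.norm_of_nonneg (one_le_max_zero hφ t).le]
  rw [h5] at h3
  rw [← e2]
  calc ‖chiW φ z f‖ * a.re * ‖S.En 1 x‖ = ‖chiW φ z f‖ * ‖S.En 1 x‖ * a.re := by ring
    _ ≤ (‖f‖ * (C * ‖D‖ / a.re)) * a.re := mul_le_mul_of_nonneg_right h3 ha.le
    _ = C * ‖f‖ * ‖D‖ := by
        field_simp

end

end Pool.Agent.WK5.H15
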